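import Pool.Agent.SchubU.Final
import Pool.Agent.SchubU.RingAll

/-!
# The growth rate of the maximal principal evaluation of Schubert polynomials

With `u(n) = max_w S_w(1, …, 1)` the limit `α = lim log₂ u(n) / n²` exists and
`1/4 ≤ α ≤ e^(-3/2) / ln 2 < 0.32191`; in other words `u(n) = 2^{α n² (1 + o(1))}`.

The family of Schubert polynomials of `S_n` is characterised by the divided difference recursion
(`IsSchubertFamily`), which has exactly one solution for every `n`.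
-/

namespace Pool.Agent.Results.MP_660525_co.GrowthRate

open Pool.Agent.Helper78.Schub

theorem result :
    (∀ n : ℕ, ∃! S : Equiv.Perm (Fin n) → MvPolynomial (Fin n) ℤ, IsSchubertFamily n S) ∧
    ∃ α : ℝ, 1 / 4 ≤ α ∧ α ≤ Real.exp (-3 / 2) / Real.log 2 ∧
      Real.exp (-3 / 2) / Real.log 2 < 0.32191 ∧
      ∀ S : (n : ℕ) → Equiv.Perm (Fin n) → MvPolynomial (Fin n) ℤ,
        (∀ n, IsSchubertFamily n (S n)) →
        Filter.Tendsto (fun n : ℕ => Real.logb 2 (maxEval n (S n)) / (n : ℝ) ^ 2)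
          Filter.atTop (nhds α) ∧
        (∃ ε : ℕ → ℝ, Filter.Tendsto ε Filter.atTop (nhds 0) ∧
          ∀ n : ℕ, (maxEval n (S n) : ℝ) = (2 : ℝ) ^ (α * (n : ℝ) ^ 2 * (1 + ε n))) := by
  obtain ⟨h1, α, h2, h3, h4, h5⟩ :=
    Pool.Agent.Schub.Ring.rate_le Pool.Agent.Schub.Ring.ring_all
  exact ⟨h1, α, h2, h3, h4, fun S hS => ⟨(h5 S hS).1, (h5 S hS).2.1⟩⟩

end Pool.Agent.Results.MP_660525_co.GrowthRate
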