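import Pool.Agent.Helper43.LB.Main

/-!
# Layered permutations do not maximise the principal evaluation of Schubert polynomials

For `u(n) = max_w S_w(1, …, 1)` and `ℓ(n)` the maximum over the layered permutations only,
`log₂ ℓ(n) / n²` tends to the listed constant `L = 0.2932362762…`, whereas
`log₂ u(n) ≥ (L + δ) n²` for all large `n`, with some `δ > 0`; hence no layered permutation
attains `u(n)` for large `n`, every one of them being off by a factor `2^(-δ n²)`.
-/

namespace Pool.Agent.Results.MP_660525_co.LayeredNotOptimal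

open Filter Topology Pool.Agent.Helper78.Schub Pool.Agent.Helper43.LB

theorem result :
    ∃ S : (n : ℕ) → Equiv.Perm (Fin n) → MvPolynomial (Fin n) ℤ,
      (∀ n T, IsSchubertFamily n T ↔ T = S n) ∧
      ∃ L δ : ℝ, ∃ N : ℕ, 0.2932362762 < L ∧ L < 0.2932362763 ∧ 0 < δ ∧
        Tendsto (fun n : ℕ => Real.logb 2 (layEval n (S n)) / (n : ℝ) ^ 2) atTop (𝓝 L) ∧
        (∀ n ≥ N, (L + δ) * (n : ℝ) ^ 2 ≤ Real.logb 2 (maxEval n (S n))) ∧
        (∀ n ≥ N, ∀ w : Equiv.Perm (Fin n), IsLayered w →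
          ((MvPolynomial.eval (fun _ => (1 : ℤ)) (S n w) : ℤ) : ℝ)
            ≤ (2 : ℝ) ^ (-(δ * (n : ℝ) ^ 2)) * maxEval n (S n)) :=
  layered_theorem

end Pool.Agent.Results.MP_660525_co.LayeredNotOptimal
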